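import Mathlib

/-!
Thue-Morse factorial series: linear independence of the values of all derivatives.

Let `t` be the Thue-Morse sequence, `F z = sum_n t n z ^ n / n!`, and let `b` be a non-zero element of a
subring `O` of the complex numbers whose non-zero elements have absolute value at least `1` (such as the
integers of the rational field or of an imaginary quadratic field). The values at `1 / b` of `F` and of
all its derivatives are linearly independent over the fraction field of `O`, also modulo this field, and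
no combination of them is the sum of an element of this field and of a number `sum_n p n / (b ^ n n!)`
with a bounded sequence `p` in `O` which has a fixed period on arbitrarily long intervals.

Proof. A relation gives a bounded sequence `g` in `O` with `sum_n g n / (b ^ n n!) = u / v`. The tails
multiplied by `v N! b ^ N` lie in `O` and tend to `0`, so they vanish for all large `N`, and `g` is
eventually zero. So a combination of shifts of `t` has a fixed period on arbitrarily long intervals.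
Along even and along odd numbers it is a combination of fewer shifts, and by induction all
coefficients vanish.
-/

set_option autoImplicit false

namespace Pool.Agent.Results.MP_304139_nt.LinearIndependence

open Finset Filter
open scoped Nat

/-- The Thue-Morse sequence: the parity of the number of ones in the binary expansion. -/
def tm (n : ℕ) : ℕ := (Nat.digits 2 n).sum % 2

theorem tm_even (n : ℕ) : tm (2 * n) = tm n := by
  unfold tm
  rcases Nat.eq_zero_or_pos n with rfl | hn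
  · simp
  · rw [Nat.digits_def' (by norm_num) (by omega : 0 < 2 * n)]
    have h1 : 2 * n % 2 = 0 := by omega
    have h2 : 2 * n / 2 = n := by omega
    rw [h1, h2, List.sum_cons, Nat.zero_add]

theorem tm_odd (n : ℕ) : tm (2 * n + 1) = 1 - tm n := by
  unfold tm
  rw [Nat.digits_def' (by norm_num) (by omega : 0 < 2 * n + 1)]
  have h1 : (2 * n + 1) % 2 = 1 := by omega
  have h2 : (2 * n + 1) / 2 = n := by omega
  rw [h1, h2, List.sum_cons]
  omega

theorem tm_le (n : ℕ) : tm n ≤ 1 := by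
  unfold tm
  omega

/-- The sequence `(-1) ^ t`. -/
noncomputable def e (n : ℕ) : ℂ := 1 - 2 * (tm n : ℂ)

theorem e_even (n : ℕ) : e (2 * n) = e n := by
  unfold e
  rw [tm_even]

theorem e_odd (n : ℕ) : e (2 * n + 1) = - e n := by
  unfold e
  rw [tm_odd, Nat.cast_sub (tm_le n)]
  push_cast
  ring

theorem e_ne (n : ℕ) : e n ≠ 0 := by
  unfold e
  have h := tm_le n
  interval_cases h1 : tm n <;> norm_num

/-- There is a fixed period on arbitrarily long intervals. -/
def LP (g : ℕ → ℂ) : Prop :=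
  ∃ P : ℕ, 0 < P ∧ ∀ L : ℕ, ∃ a, L ≤ a ∧ ∀ n, a ≤ n → n ≤ a + L → g (n + P) = g n

theorem LP.even {g : ℕ → ℂ} (h : LP g) : LP (fun n => g (2 * n)) := by
  obtain ⟨P, hP, h⟩ := h
  refine ⟨P, hP, fun L => ?_⟩
  obtain ⟨a, ha, h1⟩ := h (2 * L + P + 2)
  refine ⟨(a + 1) / 2, by omega, fun n hn hn' => ?_⟩
  have h2 := h1 (2 * n) (by omega) (by omega)
  have h3 := h1 (2 * n + P) (by omega) (by omega)
  change g (2 * (n + P)) = g (2 * n)
  rw [← h2, ← h3]
  congr 1
  ring

theorem LP.odd {g : ℕ → ℂ} (h : LP g) : LP (fun n => g (2 * n + 1)) := by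
  obtain ⟨P, hP, h⟩ := h
  refine ⟨P, hP, fun L => ?_⟩
  obtain ⟨a, ha, h1⟩ := h (2 * L + P + 2)
  refine ⟨(a + 1) / 2, by omega, fun n hn hn' => ?_⟩
  have h2 := h1 (2 * n + 1) (by omega) (by omega)
  have h3 := h1 (2 * n + 1 + P) (by omega) (by omega)
  change g (2 * (n + P) + 1) = g (2 * n + 1)
  rw [← h2, ← h3]
  congr 1
  ring

theorem LP.of_mul {g : ℕ → ℂ} {x : ℂ} (hx : x ≠ 0) (h : LP (fun n => x * g n)) : LP g := by
  obtain ⟨P, hP, h⟩ := h
  refine ⟨P, hP, fun L => ?_⟩
  obtain ⟨a, ha, h1⟩ := h L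
  exact ⟨a, ha, fun n hn hn' => mul_left_cancel₀ hx (h1 n hn hn')⟩

theorem not_LP_aux : ∀ P : ℕ, 0 < P →
    ¬ ∀ L : ℕ, ∃ a, L ≤ a ∧ ∀ n, a ≤ n → n ≤ a + L → e (n + P) = e n := by
  intro P
  induction P using Nat.strong_induction_on with
  | _ P ih =>
    intro hP h
    rcases Nat.even_or_odd' P with ⟨Q, hQ | hQ⟩
    · refine ih Q (by omega) (by omega) fun L => ?_
      obtain ⟨a, ha, h1⟩ := h (2 * L + 2)
      refine ⟨(a + 1) / 2, by omega, fun n hn hn' => ?_⟩
      have := h1 (2 * n) (by omega) (by omega)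
      rw [hQ, ← Nat.mul_add, e_even, e_even] at this
      exact this
    · obtain ⟨a, ha, h1⟩ := h 4
      obtain ⟨n, m, hn, hn', hm⟩ : ∃ n m, a ≤ 2 * n ∧ 2 * n + 1 ≤ a + 4 ∧ n + Q = 2 * m := by
        rcases Nat.even_or_odd' ((a + 1) / 2 + Q) with ⟨m, hm | hm⟩
        · exact ⟨(a + 1) / 2, m, by omega, by omega, hm⟩
        · exact ⟨(a + 1) / 2 + 1, m + 1, by omega, by omega, by omega⟩
      have h3 := h1 (2 * n) hn (by omega)
      have h4 := h1 (2 * n + 1) (by omega) hn'
      have h5 : 2 * n + P = 2 * (2 * m) + 1 := by omega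
      have h6 : 2 * n + 1 + P = 2 * (2 * m + 1) := by omega
      rw [h5, e_odd, e_even, e_even] at h3
      rw [h6, e_even, e_odd, e_odd] at h4
      have h7 : e m = 0 := by
        have h8 : 2 * e m = 0 := by linear_combination -h3 - h4
        simpa using h8
      exact e_ne _ h7

theorem not_LP : ¬ LP e := fun ⟨P, hP, h⟩ => not_LP_aux P hP h

theorem sumr {A B : ℕ} (hAB : A ≤ B) {c : ℕ → ℂ} (hc : ∀ j, A ≤ j → c j = 0) (f : ℕ → ℂ) :
    ∑ j ∈ range B, c j * f j = ∑ j ∈ range A, c j * f j := by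
  symm
  refine sum_subset (range_mono hAB) fun j _ hj => ?_
  rw [hc j (by simpa using hj), zero_mul]

theorem sum_pairs (f : ℕ → ℂ) (M : ℕ) :
    ∑ j ∈ range (2 * M), f j = ∑ i ∈ range M, (f (2 * i) + f (2 * i + 1)) := by
  induction M with
  | zero => simp
  | succ M ih =>
    have : 2 * (M + 1) = 2 * M + 1 + 1 := by ring
    rw [this, sum_range_succ, sum_range_succ, sum_range_succ, ih]
    ring

theorem indep : ∀ J : ℕ, ∀ c : ℕ → ℂ, (∀ j, J ≤ j → c j = 0) →
    LP (fun n => ∑ j ∈ range J, c j * e (n + j)) → ∀ j, c j = 0 := by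
  intro J
  induction J using Nat.strong_induction_on with
  | _ J ih =>
    intro c hc h
    by_cases hJ0 : J = 0
    · intro j
      exact hc j (by omega)
    by_cases hJ1 : J = 1
    · subst hJ1
      simp only [sum_range_one, Nat.add_zero] at h
      have h0 : c 0 = 0 := by
        by_contra h0
        exact not_LP (LP.of_mul h0 h)
      intro j
      rcases Nat.eq_zero_or_pos j with rfl | hj
      · exact h0
      · exact hc j hj
    by_cases hJ2 : J = 2
    · subst hJ2
      have hev := h.even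
      have hod := h.odd
      have e1 : ∀ n, ∑ j ∈ range 2, c j * e (2 * n + j) = (c 0 - c 1) * e n := by
        intro n
        rw [sum_range_succ, sum_range_one, Nat.add_zero, e_even, e_odd]
        ring
      have e2 : ∀ n, ∑ j ∈ range 2, c j * e (2 * n + 1 + j) = - c 0 * e n + c 1 * e (n + 1) := by
        intro n
        have : 2 * n + 1 + 1 = 2 * (n + 1) := by ring
        rw [sum_range_succ, sum_range_one, Nat.add_zero, this, e_even, e_odd]
        ring
      simp only [e1] at hev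
      simp only [e2] at hod
      have h01 : c 0 = c 1 := by
        by_contra h01
        exact not_LP (LP.of_mul (sub_ne_zero.2 h01) hev)
      have hoe := hod.even
      have e3 : ∀ n, - c 0 * e (2 * n) + c 1 * e (2 * n + 1) = (- (2 * c 0)) * e n := by
        intro n
        rw [e_even, e_odd, ← h01]
        ring
      simp only [e3] at hoe
      have h0 : c 0 = 0 := by
        by_contra h0
        exact not_LP (LP.of_mul (neg_ne_zero.2 (mul_ne_zero two_ne_zero h0)) hoe)
      intro j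
      rcases j with _ | _ | j
      · exact h0
      · rw [← h01]
        exact h0
      · exact hc _ (by omega)
    -- the general case
    have hJ3 : 3 ≤ J := by omega
    set M := (J + 1) / 2 with hM
    have h2M : J ≤ 2 * M := by omega
    -- even numbers
    have hc1 := ih M (by omega) (fun i => c (2 * i) - c (2 * i + 1))
      (fun i hi => by rw [hc _ (by omega), hc _ (by omega), sub_zero]) (by
        have hev := h.even
        have e1 : ∀ n, ∑ j ∈ range J, c j * e (2 * n + j) =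
            ∑ i ∈ range M, (c (2 * i) - c (2 * i + 1)) * e (n + i) := by
          intro n
          rw [← sumr h2M hc (fun j => e (2 * n + j)), sum_pairs]
          refine sum_congr rfl fun i _ => ?_
          have a1 : 2 * n + 2 * i = 2 * (n + i) := by ring
          have a2 : 2 * n + (2 * i + 1) = 2 * (n + i) + 1 := by ring
          rw [a1, a2, e_even, e_odd]
          ring
        simp only [e1] at hev
        exact hev)
    -- odd numbers
    have hc2 := ih (J / 2 + 1) (by omega) (fun i => (if i = 0 then 0 else c (2 * i - 1)) - c (2 * i))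
      (fun i hi => by
        rw [if_neg (by omega), hc _ (by omega), hc _ (by omega), sub_zero]) (by
        have hod := h.odd
        have e1 : ∀ n, ∑ j ∈ range J, c j * e (2 * n + 1 + j) =
            ∑ i ∈ range (J / 2 + 1), ((if i = 0 then 0 else c (2 * i - 1)) - c (2 * i)) * e (n + i) := by
          intro n
          rw [← sumr h2M hc (fun j => e (2 * n + 1 + j)), sum_pairs]
          rw [← sumr (A := J / 2 + 1) (B := M + 1) (by omega)
            (c := fun i => (if i = 0 then 0 else c (2 * i - 1)) - c (2 * i)) (fun i hi => by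
              rw [if_neg (by omega), hc _ (by omega), hc _ (by omega), sub_zero])
            (fun i => e (n + i))]
          have a0 : ∑ i ∈ range (M + 1), ((if i = 0 then 0 else c (2 * i - 1)) - c (2 * i)) * e (n + i)
              = ∑ i ∈ range (M + 1), (if i = 0 then 0 else c (2 * i - 1)) * e (n + i)
                - ∑ i ∈ range (M + 1), c (2 * i) * e (n + i) := by
            rw [← sum_sub_distrib]
            exact sum_congr rfl fun i _ => by ring
          rw [a0, sum_range_succ' (fun i => (if i = 0 then 0 else c (2 * i - 1)) * e (n + i)),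
            sum_range_succ (fun i => c (2 * i) * e (n + i)), hc (2 * M) h2M]
          simp only [if_true, zero_mul, add_zero, Nat.succ_ne_zero, if_false]
          rw [← sum_sub_distrib]
          refine sum_congr rfl fun i _ => ?_
          have a1 : 2 * n + 1 + 2 * i = 2 * (n + i) + 1 := by ring
          have a2 : 2 * n + 1 + (2 * i + 1) = 2 * (n + (i + 1)) := by ring
          have a3 : 2 * (i + 1) - 1 = 2 * i + 1 := by omega
          rw [a1, a2, a3, e_even, e_odd]
          ring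
        simp only [e1] at hod
        exact hod)
    have h0 : c 0 = 0 := by
      have := hc2 0
      simp only [if_true, Nat.mul_zero, zero_sub, neg_eq_zero] at this
      exact this
    have hstep : ∀ i, c (2 * i) = 0 ∧ c (2 * i + 1) = 0 := by
      intro i
      induction i with
      | zero =>
        have := hc1 0
        simp only [Nat.mul_zero, Nat.zero_add] at this
        refine ⟨by simpa using h0, ?_⟩
        rw [h0, zero_sub, neg_eq_zero] at this
        simpa using this
      | succ i ihi =>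
        have b1 := hc2 (i + 1)
        have b2 := hc1 (i + 1)
        have a3 : 2 * (i + 1) - 1 = 2 * i + 1 := by omega
        simp only [Nat.succ_ne_zero, if_false, a3] at b1
        rw [ihi.2, zero_sub, neg_eq_zero] at b1
        rw [b1, zero_sub, neg_eq_zero] at b2
        exact ⟨b1, b2⟩
    intro j
    rcases Nat.even_or_odd' j with ⟨i, hi | hi⟩
    · rw [hi]
      exact (hstep i).1
    · rw [hi]
      exact (hstep i).2

/-- The terms of the series. -/
noncomputable def ser (b : ℂ) (g : ℕ → ℂ) (n : ℕ) : ℂ := g n / (b ^ n * (n ! : ℂ))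

theorem norm_ser_le {b : ℂ} (hb : 1 ≤ ‖b‖) {g : ℕ → ℂ} {B : ℝ} (hB : ∀ n, ‖g n‖ ≤ B) (n : ℕ) :
    ‖ser b g n‖ ≤ B * ((1 : ℝ) ^ n / n !) := by
  unfold ser
  rw [norm_div, norm_mul, norm_pow, Complex.norm_natCast, one_pow, mul_one_div]
  have h1 : (1 : ℝ) ≤ ‖b‖ ^ n := one_le_pow₀ hb
  have h2 : (0 : ℝ) < n ! := by exact_mod_cast Nat.factorial_pos n
  refine div_le_div₀ ((norm_nonneg _).trans (hB n)) (hB n) h2 ?_
  nlinarith

theorem summable_ser {b : ℂ} (hb : 1 ≤ ‖b‖) {g : ℕ → ℂ} {B : ℝ} (hB : ∀ n, ‖g n‖ ≤ B) :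
    Summable (ser b g) :=
  Summable.of_norm_bounded ((Real.summable_pow_div_factorial 1).mul_left B) (norm_ser_le hb hB)

/-- The scaled tails of the series. -/
noncomputable def tl (b : ℂ) (g : ℕ → ℂ) (N : ℕ) : ℂ :=
  (N ! : ℂ) * b ^ N * (∑' n, ser b g n - ∑ n ∈ range (N + 1), ser b g n)

theorem tl_succ {b : ℂ} (hb0 : b ≠ 0) (g : ℕ → ℂ) (N : ℕ) :
    tl b g (N + 1) = (N + 1) * b * tl b g N - g (N + 1) := by
  unfold tl
  rw [sum_range_succ (fun n => ser b g n) (N + 1)]
  have h1 : ((N + 1) ! : ℂ) = (N + 1) * (N ! : ℂ) := by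
    rw [Nat.factorial_succ]
    push_cast
    ring
  have h2 : ((N + 1) ! : ℂ) * b ^ (N + 1) * ser b g (N + 1) = g (N + 1) := by
    unfold ser
    have h3 : ((N + 1) ! : ℂ) ≠ 0 := by exact_mod_cast Nat.factorial_ne_zero _
    field_simp
  rw [← sub_sub, mul_sub, h2, h1]
  ring

theorem norm_tl_le {b : ℂ} (hb : 1 ≤ ‖b‖) {g : ℕ → ℂ} {B : ℝ} (hB : ∀ n, ‖g n‖ ≤ B) {N : ℕ}
    (hN : 0 < N) : ‖tl b g N‖ ≤ B / N := by
  have hs := summable_ser hb hB
  have hB0 : 0 ≤ B := (norm_nonneg _).trans (hB 0)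
  have h1 : tl b g N = ∑' k, (N ! : ℂ) * b ^ N * ser b g (k + (N + 1)) := by
    unfold tl
    rw [tsum_mul_left, ← hs.sum_add_tsum_nat_add (N + 1)]
    ring
  have hN0 : (0 : ℝ) < N := by exact_mod_cast hN
  have hr : (0 : ℝ) ≤ 1 / ((N : ℝ) + 1) := by positivity
  have hr1 : 1 / ((N : ℝ) + 1) < 1 := by
    rw [div_lt_one (by positivity)]
    linarith
  have hg := (hasSum_geometric_of_lt_one hr hr1).mul_left (B * (1 / ((N : ℝ) + 1)))
  have h2 : B * (1 / ((N : ℝ) + 1)) * (1 - 1 / ((N : ℝ) + 1))⁻¹ = B / N := by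
    have h3 : 1 - 1 / ((N : ℝ) + 1) = N / (N + 1) := by
      field_simp
      ring
    rw [h3, inv_div]
    field_simp
  rw [h2] at hg
  rw [h1]
  refine tsum_of_norm_bounded hg fun k => ?_
  unfold ser
  have hb0 : b ≠ 0 := by
    intro h
    rw [h, norm_zero] at hb
    linarith
  have hnb : 0 < ‖b‖ := by linarith
  have hf : (0 : ℝ) < ((k + (N + 1)) ! : ℕ) := by exact_mod_cast Nat.factorial_pos _
  rw [norm_mul, norm_mul, norm_pow, norm_div, norm_mul, norm_pow, Complex.norm_natCast,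
    Complex.norm_natCast]
  have h4 : (N ! : ℝ) * ((N : ℝ) + 1) ^ (k + 1) ≤ ((k + (N + 1)) ! : ℕ) := by
    have := Nat.factorial_mul_pow_le_factorial (m := N) (n := k + 1)
    have h5 : N + (k + 1) = k + (N + 1) := by ring
    rw [h5] at this
    exact_mod_cast this
  have h6 : ‖b‖ ^ N ≤ ‖b‖ ^ (k + (N + 1)) := pow_le_pow_right₀ hb (by omega)
  have h7 : B * (1 / ((N : ℝ) + 1)) * (1 / ((N : ℝ) + 1)) ^ k = B / ((N : ℝ) + 1) ^ (k + 1) := by
    rw [pow_succ, one_div, inv_pow]
    field_simp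
  rw [h7, mul_div_assoc', div_le_div_iff₀ (by positivity) (by positivity)]
  have h8 : (N ! : ℝ) * ((N : ℝ) + 1) ^ (k + 1) * ‖b‖ ^ N ≤
      ((k + (N + 1)) ! : ℕ) * ‖b‖ ^ (k + (N + 1)) := by
    refine mul_le_mul h4 h6 (by positivity) hf.le
  calc (N ! : ℝ) * ‖b‖ ^ N * ‖g (k + (N + 1))‖ * ((N : ℝ) + 1) ^ (k + 1)
      = (N ! : ℝ) * ((N : ℝ) + 1) ^ (k + 1) * ‖b‖ ^ N * ‖g (k + (N + 1))‖ := by ring
    _ ≤ ((k + (N + 1)) ! : ℕ) * ‖b‖ ^ (k + (N + 1)) * B :=
        mul_le_mul h8 (hB _) (norm_nonneg _) (by positivity)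
    _ = B * (‖b‖ ^ (k + (N + 1)) * ((k + (N + 1)) ! : ℕ)) := by ring

/-- A series with bounded numerators in `O` has its sum in the fraction field of `O` only if the
numerators vanish from some point on. -/
theorem eventually_zero (O : Subring ℂ) (hO : ∀ z ∈ O, z ≠ 0 → 1 ≤ ‖z‖) {b : ℂ} (hb : b ∈ O)
    (hb0 : b ≠ 0) {g : ℕ → ℂ} (hg : ∀ n, g n ∈ O) {B : ℝ} (hB : ∀ n, ‖g n‖ ≤ B) {u v : ℂ}
    (hu : u ∈ O) (hv : v ∈ O) (hv0 : v ≠ 0) (h : ∑' n, ser b g n = u / v) :
    ∃ N, ∀ n, N ≤ n → g n = 0 := by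
  have hb1 := hO b hb hb0
  have hmem : ∀ N, v * tl b g N ∈ O := by
    intro N
    have h1 : v * tl b g N = (N ! : ℂ) * b ^ N * u
        - v * ∑ n ∈ range (N + 1), (N ! : ℂ) * b ^ N * ser b g n := by
      unfold tl
      rw [h, ← mul_sum]
      field_simp
    rw [h1]
    refine O.sub_mem (O.mul_mem (O.mul_mem (natCast_mem O _) (O.pow_mem hb _)) hu)
      (O.mul_mem hv (O.sum_mem fun n hn => ?_))
    have hn' : n ≤ N := by
      rw [mem_range] at hn
      omega
    obtain ⟨k, hk⟩ := Nat.factorial_dvd_factorial hn'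
    have h2 : (N ! : ℂ) * b ^ N * ser b g n = (k : ℂ) * b ^ (N - n) * g n := by
      unfold ser
      have h3 : b ^ N = b ^ (N - n) * b ^ n := by
        rw [← pow_add]
        congr 1
        omega
      have h4 : (n ! : ℂ) ≠ 0 := by exact_mod_cast Nat.factorial_ne_zero _
      rw [hk, h3]
      push_cast
      field_simp
    rw [h2]
    exact O.mul_mem (O.mul_mem (natCast_mem O _) (O.pow_mem hb _)) (hg n)
  obtain ⟨N0, hN0⟩ := exists_nat_gt (‖v‖ * B)
  have hz : ∀ N, N0 + 1 ≤ N → tl b g N = 0 := by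
    intro N hN
    by_contra hne
    have h1 := hO _ (hmem N) (mul_ne_zero hv0 hne)
    have h2 := norm_tl_le hb1 hB (N := N) (by omega)
    rw [norm_mul] at h1
    have hNr : (0 : ℝ) < N := by
      have : 0 < N := by omega
      exact_mod_cast this
    have h3 : ‖v‖ * ‖tl b g N‖ ≤ ‖v‖ * (B / N) := mul_le_mul_of_nonneg_left h2 (norm_nonneg _)
    have h4 : ‖v‖ * (B / N) < 1 := by
      rw [← mul_div_assoc, div_lt_one hNr]
      have : (N0 : ℝ) ≤ N := by exact_mod_cast (by omega : N0 ≤ N)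
      linarith
    linarith
  refine ⟨N0 + 2, fun n hn => ?_⟩
  obtain ⟨m, rfl⟩ : ∃ m, n = m + 1 := ⟨n - 1, by omega⟩
  have h1 := tl_succ hb0 g m
  rw [hz _ (by omega), hz _ (by omega), mul_zero, zero_sub, eq_comm, neg_eq_zero] at h1
  exact h1

/-- The statement for the series of shifts. -/
theorem series_form (O : Subring ℂ) (hO : ∀ z ∈ O, z ≠ 0 → 1 ≤ ‖z‖) (b : ℂ) (hb : b ∈ O) (hb0 : b ≠ 0)
    (J : ℕ) (c : ℕ → ℂ) (hc : ∀ j, c j ∈ O)
    (p : ℕ → ℂ) (hp : ∀ n, p n ∈ O) (hbd : ∃ B : ℝ, ∀ n, ‖p n‖ ≤ B)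
    (hper : ∃ P : ℕ, 0 < P ∧ ∀ L : ℕ, ∃ a, L ≤ a ∧ ∀ n, a ≤ n → n ≤ a + L → p (n + P) = p n)
    (u v : ℂ) (hu : u ∈ O) (hv : v ∈ O) (hv0 : v ≠ 0)
    (h : ∑ j ∈ range J, c j * ∑' n : ℕ, (tm (n + j) : ℂ) / (b ^ n * (n ! : ℂ)) =
      ∑' n : ℕ, p n / (b ^ n * (n ! : ℂ)) + u / v) :
    ∀ j, j < J → c j = 0 := by
  have hb1 := hO b hb hb0
  obtain ⟨B, hB⟩ := hbd
  have ht : ∀ j n, ‖((tm (n + j) : ℕ) : ℂ)‖ ≤ 1 := by
    intro j n
    rw [Complex.norm_natCast]
    exact_mod_cast tm_le _
  set g : ℕ → ℂ := fun n => ∑ j ∈ range J, c j * (tm (n + j) : ℂ) - p n with hgdef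
  have hg : ∀ n, g n ∈ O := fun n =>
    O.sub_mem (O.sum_mem fun j _ => O.mul_mem (hc j) (natCast_mem O _)) (hp n)
  have hgB : ∀ n, ‖g n‖ ≤ ∑ j ∈ range J, ‖c j‖ + B := by
    intro n
    refine (norm_sub_le _ _).trans (add_le_add ((norm_sum_le _ _).trans (sum_le_sum fun j _ => ?_))
      (hB n))
    rw [norm_mul]
    exact mul_le_of_le_one_right (norm_nonneg _) (ht j n)
  have hsum : ∑' n, ser b g n = u / v := by
    have s1 : ∀ j, Summable (ser b fun n => (tm (n + j) : ℂ)) := fun j => summable_ser hb1 (ht j)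
    have s2 : Summable (ser b p) := summable_ser hb1 hB
    have e1 : ser b g = fun n => ∑ j ∈ range J, c j * ser b (fun n => (tm (n + j) : ℂ)) n
        - ser b p n := by
      funext n
      unfold ser
      simp only [hgdef]
      rw [sub_div, sum_div]
      congr 1
      exact sum_congr rfl fun j _ => by rw [mul_div_assoc]
    rw [e1, Summable.tsum_sub (summable_sum fun j _ => (s1 j).mul_left _) s2,
      Summable.tsum_finsetSum fun j _ => (s1 j).mul_left _]
    have e2 : ∀ j, ∑' n, c j * ser b (fun n => (tm (n + j) : ℂ)) n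
        = c j * ∑' n : ℕ, (tm (n + j) : ℂ) / (b ^ n * (n ! : ℂ)) := fun j => tsum_mul_left
    rw [sum_congr rfl fun j _ => e2 j, h]
    unfold ser
    ring
  obtain ⟨N, hN⟩ := eventually_zero O hO hb hb0 hg hgB hu hv hv0 hsum
  -- the combination of shifts has a period on long intervals
  have hLP : LP (fun n => ∑ j ∈ range J, c j * (tm (n + j) : ℂ)) := by
    obtain ⟨P, hP, h1⟩ := hper
    refine ⟨P, hP, fun L => ?_⟩
    obtain ⟨a, ha, h2⟩ := h1 (max L N)
    refine ⟨a, le_trans (le_max_left _ _) ha, fun n hn hn' => ?_⟩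
    have hNn : N ≤ n := le_trans (le_trans (le_max_right _ _) ha) hn
    have a1 := hN n hNn
    have a2 := hN (n + P) (le_trans hNn (Nat.le_add_right _ _))
    have a3 := h2 n hn (le_trans hn' (Nat.add_le_add_left (le_max_left _ _) _))
    simp only [hgdef, sub_eq_zero] at a1 a2
    simp only
    rw [a1, a2, a3]
  have hc' : ∀ j, J ≤ j → (if j < J then c j else 0) = 0 := fun j hj => if_neg (by omega)
  have hfin := indep J (fun j => if j < J then c j else 0) hc' (by
    obtain ⟨P, hP, h1⟩ := hLP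
    refine ⟨P, hP, fun L => ?_⟩
    obtain ⟨a, ha, h2⟩ := h1 L
    refine ⟨a, ha, fun n hn hn' => ?_⟩
    have e3 : ∀ n, ∑ j ∈ range J, (if j < J then c j else 0) * e (n + j)
        = ∑ j ∈ range J, c j - 2 * ∑ j ∈ range J, c j * (tm (n + j) : ℂ) := by
      intro n
      rw [mul_sum, ← sum_sub_distrib]
      refine sum_congr rfl fun j hj => ?_
      rw [if_pos (mem_range.1 hj)]
      unfold e
      ring
    have h3 := h2 n hn hn'
    simp only at h3
    simp only [e3]
    rw [h3])
  intro j hj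
  have := hfin j
  rwa [if_pos hj] at this

/-- The function `z -> sum_n g n z ^ n / n!`. -/
noncomputable def S (g : ℕ → ℂ) (z : ℂ) : ℂ := ∑' n : ℕ, g n * z ^ n / (n ! : ℂ)

theorem hasDerivAt_S {g : ℕ → ℂ} {B : ℝ} (hB : ∀ n, ‖g n‖ ≤ B) (z : ℂ) :
    HasDerivAt (S g) (S (fun n => g (n + 1)) z) z := by
  have hB0 : 0 ≤ B := (norm_nonneg _).trans (hB 0)
  set R : ℝ := ‖z‖ + 1 with hR
  have hR0 : 0 ≤ R := by positivity
  have hu : Summable fun n : ℕ => B * (R ^ (n - 1) * n / (n ! : ℝ)) := by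
    rw [← summable_nat_add_iff 1]
    refine ((Real.summable_pow_div_factorial R).mul_left B).congr fun n => ?_
    have h1 : ((n ! : ℕ) : ℝ) ≠ 0 := by exact_mod_cast Nat.factorial_ne_zero n
    rw [Nat.add_sub_cancel, Nat.factorial_succ]
    push_cast
    field_simp
  have hder : ∀ n : ℕ, ∀ y : ℂ, y ∈ Metric.ball (0 : ℂ) R →
      HasDerivAt (fun y => g n * y ^ n / (n ! : ℂ)) (g n * (n * y ^ (n - 1)) / (n ! : ℂ)) y := by
    intro n y _
    exact ((hasDerivAt_pow n y).const_mul (g n)).div_const _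
  have hbd : ∀ n : ℕ, ∀ y : ℂ, y ∈ Metric.ball (0 : ℂ) R →
      ‖g n * (n * y ^ (n - 1)) / (n ! : ℂ)‖ ≤ B * (R ^ (n - 1) * n / (n ! : ℝ)) := by
    intro n y hy
    rw [mem_ball_zero_iff] at hy
    rw [norm_div, norm_mul, norm_mul, norm_pow, Complex.norm_natCast, Complex.norm_natCast,
      mul_div_assoc]
    refine mul_le_mul (hB n) ?_ (by positivity) hB0
    have h1 : ‖y‖ ^ (n - 1) ≤ R ^ (n - 1) := pow_le_pow_left₀ (norm_nonneg _) hy.le _
    rw [mul_comm (n : ℝ)]
    gcongr
  have h0 : Summable fun n : ℕ => g n * (0 : ℂ) ^ n / (n ! : ℂ) := by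
    refine summable_of_ne_finset_zero (s := {0}) fun n hn => ?_
    rw [mem_singleton] at hn
    rw [zero_pow hn, mul_zero, zero_div]
  have hz : z ∈ Metric.ball (0 : ℂ) R := by
    rw [mem_ball_zero_iff, hR]
    linarith
  have h0m : (0 : ℂ) ∈ Metric.ball (0 : ℂ) R := by
    rw [mem_ball_zero_iff, norm_zero, hR]
    positivity
  have key := hasDerivAt_tsum_of_isPreconnected hu Metric.isOpen_ball
    (convex_ball (0 : ℂ) R).isPreconnected hder hbd h0m h0 hz
  have hsum : Summable fun n : ℕ => g n * (n * z ^ (n - 1)) / (n ! : ℂ) :=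
    Summable.of_norm_bounded hu fun n => hbd n z hz
  have h2 : ∑' n : ℕ, g n * (n * z ^ (n - 1)) / (n ! : ℂ) = S (fun n => g (n + 1)) z := by
    rw [hsum.tsum_eq_zero_add]
    unfold S
    rw [Nat.cast_zero, zero_mul, mul_zero, zero_div, zero_add]
    refine tsum_congr fun n => ?_
    have h1 : ((n ! : ℕ) : ℂ) ≠ 0 := by exact_mod_cast Nat.factorial_ne_zero n
    have h3 : (n : ℂ) + 1 ≠ 0 := by exact_mod_cast Nat.succ_ne_zero n
    rw [Nat.add_sub_cancel, Nat.factorial_succ]
    push_cast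
    field_simp
  rw [← h2]
  exact key

theorem iteratedDeriv_S {g : ℕ → ℂ} {B : ℝ} (hB : ∀ n, ‖g n‖ ≤ B) (j : ℕ) :
    iteratedDeriv j (S g) = S (fun n => g (n + j)) := by
  induction j with
  | zero => simp
  | succ j ih =>
    rw [iteratedDeriv_succ, ih]
    funext z
    rw [(hasDerivAt_S (fun n => hB (n + j)) z).deriv]
    congr 1
    funext n
    congr 1
    ring

/-- The rational integers satisfy the condition on `O`. -/
theorem int_cond : ∀ z ∈ (Int.castRingHom ℂ).range, z ≠ 0 → 1 ≤ ‖z‖ := by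
  rintro z ⟨k, rfl⟩ hz
  have hk : k ≠ 0 := by
    rintro rfl
    simp at hz
  have h1 : (1 : ℤ) ≤ |k| := Int.one_le_abs hk
  rw [eq_intCast, Complex.norm_intCast]
  exact_mod_cast h1

/-- The exponential generating function of the Thue-Morse sequence. -/
noncomputable def F (z : ℂ) : ℂ := ∑' n : ℕ, (tm n : ℂ) * z ^ n / (n ! : ℂ)

/-- A combination of the values of `F` and its derivatives at `1 / b` with coefficients in `O` which is
equal to `sum_n p n / (b ^ n n!) + u / v` has only zero coefficients. -/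
theorem result (O : Subring ℂ) (hO : ∀ z ∈ O, z ≠ 0 → 1 ≤ ‖z‖) (b : ℂ) (hb : b ∈ O) (hb0 : b ≠ 0)
    (J : ℕ) (c : ℕ → ℂ) (hc : ∀ j, c j ∈ O)
    (p : ℕ → ℂ) (hp : ∀ n, p n ∈ O) (hbd : ∃ B : ℝ, ∀ n, ‖p n‖ ≤ B)
    (hper : ∃ P : ℕ, 0 < P ∧ ∀ L : ℕ, ∃ a, L ≤ a ∧ ∀ n, a ≤ n → n ≤ a + L → p (n + P) = p n)
    (u v : ℂ) (hu : u ∈ O) (hv : v ∈ O) (hv0 : v ≠ 0)
    (h : ∑ j ∈ range J, c j * iteratedDeriv j F (1 / b) =
      ∑' n : ℕ, p n * (1 / b) ^ n / (n ! : ℂ) + u / v) :
    ∀ j, j < J → c j = 0 := by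
  have ht : ∀ n, ‖((tm n : ℕ) : ℂ)‖ ≤ 1 := by
    intro n
    rw [Complex.norm_natCast]
    exact_mod_cast tm_le _
  have e1 : ∀ g : ℕ → ℂ, ∑' n : ℕ, g n * (1 / b) ^ n / (n ! : ℂ) =
      ∑' n : ℕ, g n / (b ^ n * (n ! : ℂ)) := by
    intro g
    refine tsum_congr fun n => ?_
    rw [one_div, inv_pow, ← div_eq_mul_inv, div_div]
  have e2 : ∀ j, iteratedDeriv j F (1 / b) = ∑' n : ℕ, (tm (n + j) : ℂ) / (b ^ n * (n ! : ℂ)) := by
    intro j
    have h1 : F = S (fun n => (tm n : ℂ)) := rfl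
    rw [h1, iteratedDeriv_S ht]
    exact e1 fun n => (tm (n + j) : ℂ)
  simp only [e2, e1] at h
  exact series_form O hO b hb hb0 J c hc p hp hbd hper u v hu hv hv0 h

end Pool.Agent.Results.MP_304139_nt.LinearIndependence
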