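import Mathlib
import Pool.Agent.Lib.MP_304139_nt.LM.Main

/-!
A linear independence measure for factorial series with Thue-Morse digits.

Let `t` be the Thue-Morse sequence and `F z = sum_n t n z ^ n / n!`. For all `S` and `P` there is `C > 0`
such that every linear form
`a + sum_n p n / n! + sum_(j < S) b j F^(j)(1)` with integers `a`, `b j` and an integer sequence `p` of
period `P`, with `|p n|, |b j| <= H` and not all of `p n`, `b j` (`j < S`) zero, has absolute value at least
`exp (- C (log H) ^ 2 log log H)`, `H >= 3`.

Proof. The form is `a + sum_n g n / n!` with bounded integer digits `g n = p n + sum_j b j t (n + j)`;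
let `x n = n! (a + sum_(i <= n) g i / i!)`, an integer. If the form is very small then, at the places
`n + 1 = Q m + u0` with `Q` a power of two, `P | Q m` and a fixed parity of the binary digit sum of `m`, the integer
`x n` is extremely close to `- Phi m`, where `Phi m = sum_(u < L) w u / ((Q m + u0) ... (Q m + u0 + u))`
is one fixed rational function (the word `w` of digits is the same at all these places). The set of these `m`
has bounded gaps. With `L = A d`, `K = L + 2 d` such nodes and `d` of order `log H`, Siegel's lemma gives
polynomials `q0`, `q1` of degree `< 2 d`, integer valued, with `q0 + x q1 = 0` at the first `3 d` nodes.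
Divided differences and partial fractions carry this to all `K` nodes. Then `q0 - Phi q1`, times the
denominator of `Phi`, is a polynomial of degree `< K` which is extremely small at `K` nodes, and so at each
pole `-(u0 + v) / Q` of `Phi`; there it is `(L - 1 - v)! T v q1`, `T v = sum_j w (v + j) / j!`. Since
shifts of `t` are linearly independent in a quantitative way, at least `2 d` of the numbers `T v`, `v < L / 2`,
are not small, and `q1` does not vanish at one of these poles: a contradiction. All places are at most
`M = O(d ^ 2)`, so the form is at least `M ^ (-2 M)`.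
-/

set_option autoImplicit false

namespace Pool.Agent.Results.MP_304139_nt.LinearMeasureTwo

open Finset

theorem result (S P : ℕ) (hP : 0 < P) : ∃ C : ℝ, 0 < C ∧ ∀ (a : ℤ) (b p : ℕ → ℤ) (H : ℕ), 3 ≤ H →
    (∀ n, p (n + P) = p n) → (∀ n, |p n| ≤ H) → (∀ j < S, |b j| ≤ H) →
    ((∃ n, p n ≠ 0) ∨ ∃ j < S, b j ≠ 0) →
    Real.exp (-(C * (Real.log H ^ 2 * Real.log (Real.log H)))) ≤
      |(a : ℝ) + (∑' n : ℕ, (p n : ℝ) / ((Nat.factorial n : ℕ) : ℝ)) + ∑ j ∈ range S, (b j : ℝ) *
        ∑' n : ℕ, ((((Nat.digits 2 (n + j)).sum % 2 : ℕ) : ℝ) / ((Nat.factorial n : ℕ) : ℝ))| := by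
  obtain ⟨C, hC, h⟩ := Pool.Agent.Lib.MP_304139_nt.LM.measure S P hP
  refine ⟨C, hC, fun a b p H hH hp hpH hbH h0 => ?_⟩
  rw [add_assoc]
  exact h a b p H hH hp hpH hbH h0

end Pool.Agent.Results.MP_304139_nt.LinearMeasureTwo
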